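import Pool.Agent.Helper19.TGX.Goals

/-!
Project TGX (MP_a41896_nt), packet PDEG: degrees.
-/

set_option autoImplicit false

open Polynomial

namespace Pool.Agent.Helper90.TGX.PDEG

open WeierstrassCurve
open Pool.Agent.Helper19.TGX

section

variable {k : Type} [Field k]

theorem wr_deg (A B : k[X]) (h : wr A B ≠ 0) :
    (wr A B).natDegree + 1 ≤ A.natDegree + B.natDegree := by
  have e : wr A B = wronskian B A := by
    unfold wr wronskian
    ring
  rw [e] at h ⊢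
  have := natDegree_wronskian_lt_add h
  omega

theorem mono_deg (c : k) (A B : k[X]) (i j : ℕ) :
    (C c * A ^ i * B ^ j).natDegree ≤ i * A.natDegree + j * B.natDegree := by
  refine natDegree_mul_le.trans ?_
  have h1 : (C c * A ^ i).natDegree ≤ (A ^ i).natDegree := natDegree_C_mul_le _ _
  have h2 : (A ^ i).natDegree ≤ i * A.natDegree := natDegree_pow_le
  have h3 : (B ^ j).natDegree ≤ j * B.natDegree := natDegree_pow_le
  linarith

theorem mono_deg_eq {c : k} (hc : c ≠ 0) {A B : k[X]} (hA : A ≠ 0) (hB : B ≠ 0) (i j : ℕ) :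
    (C c * A ^ i * B ^ j).natDegree = i * A.natDegree + j * B.natDegree := by
  have h1 : C c * A ^ i ≠ 0 := mul_ne_zero (C_ne_zero.mpr hc) (pow_ne_zero _ hA)
  rw [natDegree_mul h1 (pow_ne_zero _ hB), natDegree_C_mul hc, natDegree_pow, natDegree_pow]

/-- the form -/
noncomputable def Fo (d₃ d₂ d₁ d₀ : k) (A B : k[X]) : k[X] :=
  C d₃ * A ^ 3 * B ^ 0 + C d₂ * A ^ 2 * B ^ 1 + C d₁ * A ^ 1 * B ^ 2 + C d₀ * A ^ 0 * B ^ 3

theorem deg3 {d₃ d₂ d₁ d₀ : k} {A B : k[X]} (h : d₃ ≠ 0) (hA : A ≠ 0) (hB : B ≠ 0)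
    (hd : B.natDegree < A.natDegree) : 3 * A.natDegree ≤ (Fo d₃ d₂ d₁ d₀ A B).natDegree := by
  have e : Fo d₃ d₂ d₁ d₀ A B = C d₃ * A ^ 3 * B ^ 0 + (C d₂ * A ^ 2 * B ^ 1 +
      C d₁ * A ^ 1 * B ^ 2 + C d₀ * A ^ 0 * B ^ 3) := by
    unfold Fo
    ring
  have h0 := mono_deg_eq h hA hB 3 0
  have h1 := mono_deg d₂ A B 2 1
  have h2 := mono_deg d₁ A B 1 2
  have h3 := mono_deg d₀ A B 0 3
  have h4 : (C d₂ * A ^ 2 * B ^ 1 + C d₁ * A ^ 1 * B ^ 2 + C d₀ * A ^ 0 * B ^ 3).natDegree ≤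
      2 * A.natDegree + B.natDegree := by
    refine (natDegree_add_le _ _).trans (max_le ((natDegree_add_le _ _).trans (max_le ?_ ?_)) ?_)
    · omega
    · omega
    · omega
  rw [e, natDegree_add_eq_left_of_natDegree_lt]
  · omega
  · omega

theorem deg0 {d₃ d₂ d₁ d₀ : k} {A B : k[X]} (h : d₀ ≠ 0) (hA : A ≠ 0) (hB : B ≠ 0)
    (hd : A.natDegree < B.natDegree) : 3 * B.natDegree ≤ (Fo d₃ d₂ d₁ d₀ A B).natDegree := by
  have e : Fo d₃ d₂ d₁ d₀ A B = C d₀ * A ^ 0 * B ^ 3 + (C d₃ * A ^ 3 * B ^ 0 +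
      C d₂ * A ^ 2 * B ^ 1 + C d₁ * A ^ 1 * B ^ 2) := by
    unfold Fo
    ring
  have h0 := mono_deg_eq h hA hB 0 3
  have h1 := mono_deg d₃ A B 3 0
  have h2 := mono_deg d₂ A B 2 1
  have h3 := mono_deg d₁ A B 1 2
  have h4 : (C d₃ * A ^ 3 * B ^ 0 + C d₂ * A ^ 2 * B ^ 1 + C d₁ * A ^ 1 * B ^ 2).natDegree ≤
      A.natDegree + 2 * B.natDegree := by
    refine (natDegree_add_le _ _).trans (max_le ((natDegree_add_le _ _).trans (max_le ?_ ?_)) ?_)
    · omega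
    · omega
    · omega
  rw [e, natDegree_add_eq_left_of_natDegree_lt]
  · omega
  · omega

theorem deg1 {d₃ d₂ d₁ : k} {A B : k[X]} (h : d₁ ≠ 0) (hA : A ≠ 0) (hB : B ≠ 0)
    (hd : A.natDegree < B.natDegree) :
    A.natDegree + 2 * B.natDegree ≤ (Fo d₃ d₂ d₁ 0 A B).natDegree := by
  have e : Fo d₃ d₂ d₁ 0 A B = C d₁ * A ^ 1 * B ^ 2 + (C d₃ * A ^ 3 * B ^ 0 +
      C d₂ * A ^ 2 * B ^ 1) := by
    unfold Fo
    rw [C_0]
    ring
  have h0 := mono_deg_eq h hA hB 1 2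
  have h1 := mono_deg d₃ A B 3 0
  have h2 := mono_deg d₂ A B 2 1
  have h4 : (C d₃ * A ^ 3 * B ^ 0 + C d₂ * A ^ 2 * B ^ 1).natDegree ≤
      2 * A.natDegree + B.natDegree := by
    refine (natDegree_add_le _ _).trans (max_le ?_ ?_)
    · omega
    · omega
  rw [e, natDegree_add_eq_left_of_natDegree_lt]
  · omega
  · omega

theorem hf_eq (W : Affine k) (A B : k[X]) : hf W A B = Fo 4 W.b₂ (2 * W.b₄) W.b₆ A B := by
  unfold hf Fo
  have h4 : (C (4 : k) : k[X]) = 4 := rfl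
  have h2 : (C (2 * W.b₄) : k[X]) = 2 * C W.b₄ := by
    rw [C_mul]
    rfl
  rw [h4, h2]
  ring

theorem hf_taylor (W : Affine k) (A₁ B : k[X]) (r : k) :
    hf W (A₁ + C r * B) B = Fo 4 (12 * r + W.b₂) (12 * r ^ 2 + 2 * W.b₂ * r + 2 * W.b₄)
      (4 * r ^ 3 + W.b₂ * r ^ 2 + 2 * W.b₄ * r + W.b₆) A₁ B := by
  unfold hf Fo
  have h4 : (C (4 : k) : k[X]) = 4 := rfl
  have h2 : (C (2 : k) : k[X]) = 2 := rfl
  have h12 : (C (12 : k) : k[X]) = 12 := rfl
  simp only [C_add, C_mul, C_pow, h4, h2, h12]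
  ring

theorem eval_bp (W : Affine k) (r : k) :
    eval r (bp W) = 4 * r ^ 3 + W.b₂ * r ^ 2 + 2 * W.b₄ * r + W.b₆ := by
  unfold bp
  simp

theorem eval_bp' (W : Affine k) (r : k) :
    eval r (derivative (bp W)) = 12 * r ^ 2 + 2 * W.b₂ * r + 2 * W.b₄ := by
  have e : bp W = C 4 * X ^ 3 + C W.b₂ * X ^ 2 + C (2 * W.b₄) * X + C W.b₆ := by
    unfold bp
    have h4 : (C (4 : k) : k[X]) = 4 := rfl
    have h2 : (C (2 * W.b₄) : k[X]) = 2 * C W.b₄ := by
      rw [C_mul]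
      rfl
    rw [h4, h2]
  rw [e]
  simp only [derivative_add, derivative_C_mul, derivative_X_pow, derivative_X, derivative_C,
    eval_add, eval_mul, eval_C, eval_pow, eval_X, eval_one, eval_zero]
  push_cast
  ring

end

theorem t (hBPF : BPF) : PDEG := by
  intro k _ _ _ W hW A B hB hw
  have hcop := (hBPF k W hW).2.2.1
  have h4 : (4 : k) ≠ 0 := by norm_num
  rcases lt_or_ge B.natDegree A.natDegree with hlt | hle
  · have hA : A ≠ 0 := by
      rintro rfl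
      simp at hlt
    have h1 := wr_deg A B hw
    have h2 := deg3 (d₂ := W.b₂) (d₁ := 2 * W.b₄) (d₀ := W.b₆) h4 hA hB hlt
    rw [← hf_eq] at h2
    omega
  · set r : k := A.coeff B.natDegree / B.leadingCoeff with hr
    set A₁ : k[X] := A - C r * B with hA₁
    have hAe : A = A₁ + C r * B := by rw [hA₁]; ring
    have hw1 : wr A₁ B = wr A B := by
      rw [hA₁]
      unfold wr
      rw [derivative_sub, derivative_C_mul]
      ring
    have hA1 : A₁ ≠ 0 := by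
      intro h
      apply hw
      rw [← hw1, h]
      unfold wr
      simp
    have hlc : B.leadingCoeff ≠ 0 := leadingCoeff_ne_zero.mpr hB
    have hco : A₁.coeff B.natDegree = 0 := by
      rw [hA₁, coeff_sub, coeff_C_mul, hr, coeff_natDegree, div_mul_cancel₀ _ hlc, sub_self]
    have hdle : A₁.natDegree ≤ B.natDegree := by
      rw [hA₁]
      refine (natDegree_sub_le _ _).trans (max_le hle ?_)
      exact natDegree_C_mul_le _ _
    have hd : A₁.natDegree < B.natDegree := by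
      refine lt_of_le_of_ne hdle fun h => ?_
      rw [← h, coeff_natDegree] at hco
      exact hA1 (leadingCoeff_eq_zero.mp hco)
    have h1 := wr_deg A₁ B (by rw [hw1]; exact hw)
    rw [hw1] at h1
    have ht := hf_taylor W A₁ B r
    rw [← hAe] at ht
    rw [ht]
    by_cases h0 : 4 * r ^ 3 + W.b₂ * r ^ 2 + 2 * W.b₄ * r + W.b₆ = 0
    · have hc1 : 12 * r ^ 2 + 2 * W.b₂ * r + 2 * W.b₄ ≠ 0 := by
        intro h
        obtain ⟨u, v, huv⟩ := hcop
        have := congrArg (eval r) huv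
        rw [eval_add, eval_mul, eval_mul, eval_bp, eval_bp', h0, h] at this
        simp at this
      rw [h0]
      have h2 := deg1 (d₃ := 4) (d₂ := 12 * r + W.b₂) hc1 hA1 hB hd
      omega
    · have h2 := deg0 (d₃ := 4) (d₂ := 12 * r + W.b₂)
        (d₁ := 12 * r ^ 2 + 2 * W.b₂ * r + 2 * W.b₄) h0 hA1 hB hd
      omega

end Pool.Agent.Helper90.TGX.PDEG
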